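import Pool.Agent.N637.SLX.Stm2
import Pool.Agent.N637.P21.Sel

set_option autoImplicit false

/-! SLX-LA, SLX-LB: the places `2` and `∞` (project SLX of helper637). -/

namespace Pool.Agent.N954.SLX

open Pool.Agent.N637.SLX
open Pool.Agent.TH841.SH (LocC)
open Pool.Agent.N637.P21 (Cls sq8)

/-- integers `4 ^ a * w` with `w = 1 mod 8` are squares -/
theorem sqI {n : ℤ} (a : ℕ) (w : ℤ) (h : n = 4 ^ a * w) (hw : w % 8 = 1) :
    IsSquare (n : ℚ_[2]) := by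
  rw [h]
  push_cast
  refine IsSquare.mul ⟨2 ^ a, ?_⟩ (sq8 hw)
  rw [← mul_pow]
  norm_num

theorem emod3 (a b c : ℤ) : (a * b * c) % 8 = ((a % 8) * (b % 8) * (c % 8)) % 8 := by
  simp [Int.mul_emod]

theorem emod4 (a b c d : ℤ) :
    (a * b * c * d) % 8 = ((a % 8) * (b % 8) * (c % 8) * (d % 8)) % 8 := by
  simp [Int.mul_emod]

/-- a point with `x = m u / 4 ^ k` -/
theorem mkpt {m d1 d2 : ℤ} (u : ℤ) (k : ℕ)
    (h0 : m * u * (u - 9 * 4 ^ k) * (u + 7 * 4 ^ k) ≠ 0)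
    (h1 : IsSquare ((m * u * d1 : ℤ) : ℚ_[2]))
    (h2 : IsSquare ((m * (u - 9 * 4 ^ k) * d2 : ℤ) : ℚ_[2]))
    (h3 : IsSquare ((m * u * (u - 9 * 4 ^ k) * (u + 7 * 4 ^ k) : ℤ) : ℚ_[2])) :
    LocC ℚ_[2] 0 (9 * m) (-7 * m) d1 d2 := by
  obtain ⟨r1, hr1⟩ := h1
  obtain ⟨r2, hr2⟩ := h2
  obtain ⟨r3, hr3⟩ := h3
  have hc : (4:ℚ_[2]) ^ k = 2 ^ k * 2 ^ k := by
    rw [← mul_pow]
    norm_num
  have h2k : (2:ℚ_[2]) ^ k ≠ 0 := pow_ne_zero _ two_ne_zero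
  have hm : (m : ℚ_[2]) ≠ 0 := by
    have : m ≠ 0 := by
      intro h
      apply h0
      rw [h]
      ring
    exact_mod_cast this
  have hr30 : r3 ≠ 0 := by
    intro h
    rw [h, mul_zero] at hr3
    exact h0 (by exact_mod_cast hr3)
  push_cast at hr1 hr2 hr3
  rw [hc] at hr2 hr3
  refine ⟨m * u / (2 ^ k * 2 ^ k), m * r3 / (2 ^ k * 2 ^ k * 2 ^ k), ?_, ?_, ⟨r1 / 2 ^ k, ?_⟩,
    ⟨r2 / 2 ^ k, ?_⟩⟩
  · exact div_ne_zero (mul_ne_zero hm hr30) (mul_ne_zero (mul_ne_zero h2k h2k) h2k)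
  · push_cast
    field_simp
    linear_combination (-1 : ℚ_[2]) * hr3
  · push_cast
    field_simp
    linear_combination hr1
  · push_cast
    field_simp
    linear_combination hr2

/-- the real place -/
theorem real_pt {m d1 d2 : ℤ} (hm : m < 0) (hd1 : d1 ≠ 0) (hd2 : 0 < d2) :
    LocC ℝ 0 (9 * m) (-7 * m) d1 d2 := by
  have hm' : (m:ℝ) < 0 := by exact_mod_cast hm
  have hd2' : (0:ℝ) < d2 := by exact_mod_cast hd2
  have key : ∀ x : ℝ, 0 < x * (x - 9 * m) * (x + 7 * m) → 0 ≤ x * d1 → 0 ≤ x - 9 * m →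
      LocC ℝ 0 (9 * m) (-7 * m) d1 d2 := by
    intro x h1 h2 h3
    refine ⟨x, Real.sqrt (x * (x - 9 * m) * (x + 7 * m)), (Real.sqrt_pos.2 h1).ne', ?_, ?_, ?_⟩
    · rw [Real.sq_sqrt h1.le]
      push_cast
      ring
    · push_cast
      rw [sub_zero]
      exact (Real.isSquare_iff).2 h2
    · push_cast
      exact (Real.isSquare_iff).2 (mul_nonneg h3 hd2'.le)
  have hm3 : (0:ℝ) < (-m) ^ 3 := pow_pos (by linarith) 3
  rcases lt_or_gt_of_ne hd1 with h | h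
  · have h' : (d1:ℝ) < 0 := by exact_mod_cast h
    refine key m ?_ (by nlinarith) (by linarith)
    have : (m:ℝ) * (m - 9 * m) * (m + 7 * m) = 64 * (-m) ^ 3 := by ring
    rw [this]
    linarith
  · have h' : (0:ℝ) < d1 := by exact_mod_cast h
    refine key (-8 * m) ?_ (by nlinarith) (by linarith)
    have : (-8 * m : ℝ) * (-8 * m - 9 * m) * (-8 * m + 7 * m) = 136 * (-m) ^ 3 := by ring
    rw [this]
    linarith

/-- the place `2`, `m = 1 mod 4` -/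
theorem two_pt {m d1 d2 : ℤ} (hm : m % 4 = 1) (h1 : d1 % 4 = 1) (h2 : d2 % 2 = 1) :
    LocC ℚ_[2] 0 (9 * m) (-7 * m) d1 d2 := by
  have hm0 : m ≠ 0 := by omega
  have key : ∀ (u : ℤ) (k a b c : ℕ) (u' v' w' : ℤ), u = 4 ^ a * u' → u - 9 * 4 ^ k = 4 ^ b * v' →
      u + 7 * 4 ^ k = 4 ^ c * w' → u' ≠ 0 → v' ≠ 0 → w' ≠ 0 →
      ((m % 8) * (u' % 8) * (d1 % 8)) % 8 = 1 → ((m % 8) * (v' % 8) * (d2 % 8)) % 8 = 1 →
      ((m % 8) * (u' % 8) * (v' % 8) * (w' % 8)) % 8 = 1 →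
      LocC ℚ_[2] 0 (9 * m) (-7 * m) d1 d2 := by
    intro u k a b c u' v' w' e1 e2 e3 n1 n2 n3 s1 s2 s3
    rw [← emod3] at s1 s2
    rw [← emod4] at s3
    refine mkpt u k ?_ (sqI a (m * u' * d1) ?_ s1) (sqI b (m * v' * d2) ?_ s2)
      (sqI (a + b + c) (m * u' * v' * w') ?_ s3)
    · rw [e2, e3, e1]
      have : (4:ℤ) ≠ 0 := by norm_num
      positivity
    · rw [e1]; ring
    · rw [e2]; ring
    · rw [e2, e3, e1]; ring
  have c1 : m % 8 = 1 ∨ m % 8 = 5 := by omega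
  have c2 : d1 % 8 = 1 ∨ d1 % 8 = 5 := by omega
  have c3 : d2 % 8 = 1 ∨ d2 % 8 = 3 ∨ d2 % 8 = 5 ∨ d2 % 8 = 7 := by omega
  rcases c1 with c1 | c1 <;> rcases c2 with c2 | c2 <;> rcases c3 with c3 | c3 | c3 | c3
  · exact key (265) 0 0 4 2 (265) (1) (17) (by norm_num) (by norm_num) (by norm_num)
      (by norm_num) (by norm_num) (by norm_num) (by rw [c1, c2]; norm_num)
      (by rw [c1, c3]; norm_num) (by rw [c1]; norm_num)
  · exact key (4) 0 1 0 0 (1) (-5) (11) (by norm_num) (by norm_num) (by norm_num)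
      (by norm_num) (by norm_num) (by norm_num) (by rw [c1, c2]; norm_num)
      (by rw [c1, c3]; norm_num) (by rw [c1]; norm_num)
  · exact key (-183) 0 0 3 2 (-183) (-3) (-11) (by norm_num) (by norm_num) (by norm_num)
      (by norm_num) (by norm_num) (by norm_num) (by rw [c1, c2]; norm_num)
      (by rw [c1, c3]; norm_num) (by rw [c1]; norm_num)
  · exact key (16) 0 2 0 0 (1) (7) (23) (by norm_num) (by norm_num) (by norm_num)
      (by norm_num) (by norm_num) (by norm_num) (by rw [c1, c2]; norm_num)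
      (by rw [c1, c3]; norm_num) (by rw [c1]; norm_num)
  · exact key (13) 0 0 1 1 (13) (1) (5) (by norm_num) (by norm_num) (by norm_num)
      (by norm_num) (by norm_num) (by norm_num) (by rw [c1, c2]; norm_num)
      (by rw [c1, c3]; norm_num) (by rw [c1]; norm_num)
  · exact key (-11) 0 0 1 1 (-11) (-5) (-1) (by norm_num) (by norm_num) (by norm_num)
      (by norm_num) (by norm_num) (by norm_num) (by rw [c1, c2]; norm_num)
      (by rw [c1, c3]; norm_num) (by rw [c1]; norm_num)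
  · exact key (-3) 0 0 1 1 (-3) (-3) (1) (by norm_num) (by norm_num) (by norm_num)
      (by norm_num) (by norm_num) (by norm_num) (by rw [c1, c2]; norm_num)
      (by rw [c1, c3]; norm_num) (by rw [c1]; norm_num)
  · exact key (5) 0 0 1 1 (5) (-1) (3) (by norm_num) (by norm_num) (by norm_num)
      (by norm_num) (by norm_num) (by norm_num) (by rw [c1, c2]; norm_num)
      (by rw [c1, c3]; norm_num) (by rw [c1]; norm_num)
  · exact key (-3) 2 0 0 0 (-3) (-147) (109) (by norm_num) (by norm_num) (by norm_num)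
      (by norm_num) (by norm_num) (by norm_num) (by rw [c1, c2]; norm_num)
      (by rw [c1, c3]; norm_num) (by rw [c1]; norm_num)
  · exact key (-48) 0 2 0 0 (-3) (-57) (-41) (by norm_num) (by norm_num) (by norm_num)
      (by norm_num) (by norm_num) (by norm_num) (by rw [c1, c2]; norm_num)
      (by rw [c1, c3]; norm_num) (by rw [c1]; norm_num)
  · exact key (-3) 1 0 0 0 (-3) (-39) (25) (by norm_num) (by norm_num) (by norm_num)
      (by norm_num) (by norm_num) (by norm_num) (by rw [c1, c2]; norm_num)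
      (by rw [c1, c3]; norm_num) (by rw [c1]; norm_num)
  · exact key (-12) 0 1 0 0 (-3) (-21) (-5) (by norm_num) (by norm_num) (by norm_num)
      (by norm_num) (by norm_num) (by norm_num) (by rw [c1, c2]; norm_num)
      (by rw [c1, c3]; norm_num) (by rw [c1]; norm_num)
  · exact key (-759) 0 0 4 2 (-759) (-3) (-47) (by norm_num) (by norm_num) (by norm_num)
      (by norm_num) (by norm_num) (by norm_num) (by rw [c1, c2]; norm_num)
      (by rw [c1, c3]; norm_num) (by rw [c1]; norm_num)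
  · exact key (761) 0 0 2 4 (761) (47) (3) (by norm_num) (by norm_num) (by norm_num)
      (by norm_num) (by norm_num) (by norm_num) (by rw [c1, c2]; norm_num)
      (by rw [c1, c3]; norm_num) (by rw [c1]; norm_num)
  · exact key (73) 0 0 3 2 (73) (1) (5) (by norm_num) (by norm_num) (by norm_num)
      (by norm_num) (by norm_num) (by norm_num) (by rw [c1, c2]; norm_num)
      (by rw [c1, c3]; norm_num) (by rw [c1]; norm_num)
  · exact key (-71) 0 0 2 3 (-71) (-5) (-1) (by norm_num) (by norm_num) (by norm_num)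
      (by norm_num) (by norm_num) (by norm_num) (by rw [c1, c2]; norm_num)
      (by rw [c1, c3]; norm_num) (by rw [c1]; norm_num)

theorem t_LA : S_LA := by
  intro m hm d1 d2 s1 s2
  exact ⟨fun h1 h2 h3 => two_pt h1 h2 h3, fun h => real_pt hm.neg s1.ne_zero h⟩

theorem emod2 (a b : ℤ) : (a * b) % 8 = ((a % 8) * (b % 8)) % 8 := by
  simp [Int.mul_emod]

/-- even elements of `ℤ_2` -/
theorem even_of {X : ℤ_[2]} (h : PadicInt.toZModPow 2 X = 0 ∨ PadicInt.toZModPow 2 X = 2) :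
    ∃ Z : ℤ_[2], X = 2 * Z := by
  have key : ∀ c : ℤ_[2], PadicInt.toZModPow 2 X = PadicInt.toZModPow 2 (2 * c) →
      ∃ Z : ℤ_[2], X = 2 * Z := by
    intro c hc
    have h2 : (X - 2 * c) ∈ RingHom.ker (PadicInt.toZModPow (p := 2) 2) := by
      rw [RingHom.mem_ker, map_sub, hc, sub_self]
    rw [PadicInt.ker_toZModPow, Ideal.mem_span_singleton] at h2
    obtain ⟨t, ht⟩ := h2
    refine ⟨c + 2 * t, ?_⟩
    have : X = 2 * c + ((2 : ℕ) : ℤ_[2]) ^ 2 * t := by rw [← ht]; ring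
    rw [this]
    push_cast
    ring
  rcases h with h | h
  · exact key 0 (by rw [h]; simp)
  · exact key 1 (by rw [h, mul_one, map_ofNat])

/-- descent -/
theorem norm_desc {m d : ℤ} (hm : m % 4 = 2 ∨ m % 4 = 3) (n : ℕ) : ∀ X Y : ℤ_[2],
    X ^ 2 - m * Y ^ 2 = 4 ^ n * d → ∃ X Y : ℤ_[2], (d : ℤ_[2]) = X ^ 2 - m * Y ^ 2 := by
  induction n with
  | zero =>
    intro X Y h
    exact ⟨X, Y, by rw [h]; ring⟩
  | succ n ih =>
    intro X Y h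
    have h1 := congrArg (PadicInt.toZModPow (p := 2) 2) h
    have h4 : (4 : ZMod (2 ^ 2)) = 0 := by decide
    simp only [map_sub, map_mul, map_pow, map_intCast, map_ofNat, h4,
      zero_pow (Nat.succ_ne_zero n), zero_mul] at h1
    have d3 : ∀ a b : ZMod (2 ^ 2), a ^ 2 - 3 * b ^ 2 = 0 → (a = 0 ∨ a = 2) ∧ (b = 0 ∨ b = 2) := by
      decide
    have d2 : ∀ a b : ZMod (2 ^ 2), a ^ 2 - 2 * b ^ 2 = 0 → (a = 0 ∨ a = 2) ∧ (b = 0 ∨ b = 2) := by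
      decide
    have hc : (PadicInt.toZModPow 2 X = 0 ∨ PadicInt.toZModPow 2 X = 2) ∧
        (PadicInt.toZModPow 2 Y = 0 ∨ PadicInt.toZModPow 2 Y = 2) := by
      rcases hm with hm | hm
      · have e : ((m : ℤ) : ZMod (2 ^ 2)) = 2 := by
          have : ((m : ℤ) : ZMod (2 ^ 2)) = ((2 : ℤ) : ZMod (2 ^ 2)) := by
            rw [ZMod.intCast_eq_intCast_iff]
            show m % ((2 ^ 2 : ℕ) : ℤ) = 2 % ((2 ^ 2 : ℕ) : ℤ)
            norm_num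
            exact hm
          rw [this]
          norm_num
        rw [e] at h1
        exact d2 _ _ h1
      · have e : ((m : ℤ) : ZMod (2 ^ 2)) = 3 := by
          have : ((m : ℤ) : ZMod (2 ^ 2)) = ((3 : ℤ) : ZMod (2 ^ 2)) := by
            rw [ZMod.intCast_eq_intCast_iff]
            show m % ((2 ^ 2 : ℕ) : ℤ) = 3 % ((2 ^ 2 : ℕ) : ℤ)
            norm_num
            exact hm
          rw [this]
          norm_num
        rw [e] at h1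
        exact d3 _ _ h1
    obtain ⟨X1, rfl⟩ := even_of hc.1
    obtain ⟨Y1, rfl⟩ := even_of hc.2
    apply ih X1 Y1
    have h40 : (4 : ℤ_[2]) ≠ 0 := by norm_num
    apply mul_left_cancel₀ h40
    linear_combination h

theorem norm_red {m d : ℤ} (hm : m % 4 = 2 ∨ m % 4 = 3) (x y : ℚ_[2])
    (h : (d : ℚ_[2]) = x ^ 2 - m * y ^ 2) : ∃ X Y : ℤ_[2], (d : ℤ_[2]) = X ^ 2 - m * Y ^ 2 := by
  obtain ⟨n, hn⟩ := pow_unbounded_of_one_lt (max ‖x‖ ‖y‖) (one_lt_two (α := ℝ))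
  have hle : ∀ z : ℚ_[2], ‖z‖ ≤ 2 ^ n → ‖(2 : ℚ_[2]) ^ n * z‖ ≤ 1 := by
    intro z hz
    have e : ‖(2 : ℚ_[2]) ^ n‖ = (2 ^ n)⁻¹ := by
      have h2 := Padic.norm_p_pow (p := 2) n
      push_cast at h2
      rw [zpow_neg, zpow_natCast] at h2
      exact h2
    rw [norm_mul, e, inv_mul_le_iff₀ (by positivity), mul_one]
    exact hz
  have hx := hle x ((le_max_left _ _).trans hn.le)
  have hy := hle y ((le_max_right _ _).trans hn.le)
  obtain ⟨X, hX⟩ : ∃ X : ℤ_[2], (X : ℚ_[2]) = 2 ^ n * x := ⟨⟨_, hx⟩, rfl⟩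
  obtain ⟨Y, hY⟩ : ∃ Y : ℤ_[2], (Y : ℚ_[2]) = 2 ^ n * y := ⟨⟨_, hy⟩, rfl⟩
  refine norm_desc hm n X Y ?_
  have e4 : (4 : ℚ_[2]) ^ n = 2 ^ n * 2 ^ n := by
    rw [← mul_pow]
    norm_num
  have c4 : ((4 ^ n * d : ℤ_[2]) : ℚ_[2]) = 4 ^ n * d := by
    rw [PadicInt.coe_mul, PadicInt.coe_pow, PadicInt.coe_intCast]
    rfl
  have c5 : ((X ^ 2 - m * Y ^ 2 : ℤ_[2]) : ℚ_[2]) = (X : ℚ_[2]) ^ 2 - m * (Y : ℚ_[2]) ^ 2 := by
    rw [PadicInt.coe_sub, PadicInt.coe_mul, PadicInt.coe_pow, PadicInt.coe_pow, PadicInt.coe_intCast]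
  apply PadicInt.ext
  rw [c4, c5, hX, hY, h, e4]
  ring

theorem norm_res {m d : ℤ} (hm : m % 4 = 2 ∨ m % 4 = 3)
    (h : ∃ x y : ℚ_[2], (d : ℚ_[2]) = x ^ 2 - m * y ^ 2) :
    ∃ α β : ℤ, (α = 0 ∨ α = 1 ∨ α = 4 ∨ α = 9) ∧ (β = 0 ∨ β = 1 ∨ β = 4 ∨ β = 9) ∧
      d % 16 = (α - m * β) % 16 := by
  obtain ⟨x, y, hxy⟩ := h
  obtain ⟨X, Y, hXY⟩ := norm_red hm x y hxy
  have h1 := congrArg (PadicInt.toZModPow (p := 2) 4) hXY
  simp only [map_sub, map_mul, map_pow, map_intCast] at h1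
  have hs : ∀ a : ZMod (2 ^ 4), a ^ 2 = ((0 : ℤ) : ZMod (2 ^ 4)) ∨ a ^ 2 = ((1 : ℤ) : ZMod (2 ^ 4)) ∨
      a ^ 2 = ((4 : ℤ) : ZMod (2 ^ 4)) ∨ a ^ 2 = ((9 : ℤ) : ZMod (2 ^ 4)) := by decide
  have hs' : ∀ a : ZMod (2 ^ 4), ∃ α : ℤ, (α = 0 ∨ α = 1 ∨ α = 4 ∨ α = 9) ∧
      a ^ 2 = (α : ZMod (2 ^ 4)) := by
    intro a
    rcases hs a with h | h | h | h
    · exact ⟨0, by norm_num, h⟩
    · exact ⟨1, by norm_num, h⟩
    · exact ⟨4, by norm_num, h⟩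
    · exact ⟨9, by norm_num, h⟩
  obtain ⟨α, hα, ha⟩ := hs' (PadicInt.toZModPow (p := 2) 4 X)
  obtain ⟨β, hβ, hb⟩ := hs' (PadicInt.toZModPow (p := 2) 4 Y)
  refine ⟨α, β, hα, hβ, ?_⟩
  rw [ha, hb] at h1
  have h2 : ((d : ℤ) : ZMod (2 ^ 4)) = ((α - m * β : ℤ) : ZMod (2 ^ 4)) := by
    rw [h1]
    push_cast
    rfl
  rw [ZMod.intCast_eq_intCast_iff] at h2
  exact h2

/-- a point with `x = m u / 4 ^ k` -/
theorem mkpt2 {m d1 d2 : ℤ} (u : ℤ) (k a b c : ℕ) (n1 n2 n3 : ℤ)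
    (hd1 : (IsSquare (d1 : ℚ_[2]) ∧ m * u = 4 ^ a * n1) ∨
      (IsSquare ((d1 : ℚ_[2]) * m) ∧ u = 4 ^ a * n1)) (hn1 : n1 % 8 = 1)
    (h2 : m * (u - 9 * 4 ^ k) * d2 = 4 ^ b * n2) (hn2 : n2 % 8 = 1)
    (h3 : m * u * (u - 9 * 4 ^ k) * (u + 7 * 4 ^ k) = 4 ^ c * n3) (hn3 : n3 % 8 = 1) :
    LocC ℚ_[2] 0 (9 * m) (-7 * m) d1 d2 := by
  refine mkpt u k ?_ ?_ (sqI b n2 h2 hn2) (sqI c n3 h3 hn3)
  · rw [h3]
    have : n3 ≠ 0 := by
      intro h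
      rw [h] at hn3
      norm_num at hn3
    positivity
  · rcases hd1 with ⟨h, e⟩ | ⟨h, e⟩
    · have := (sqI a n1 e hn1).mul h
      push_cast at this ⊢
      exact this
    · have := (sqI a n1 e hn1).mul h
      push_cast at this ⊢
      have e' : (m : ℚ_[2]) * u * d1 = u * (d1 * m) := by ring
      rw [e']
      exact this

theorem case7 {m d1 d2 : ℤ} (hm : m % 8 = 7) (s2 : ¬ (4 : ℤ) ∣ d2)
    (hd1 : IsSquare (d1 : ℚ_[2]) ∨ IsSquare ((d1 : ℚ_[2]) * m))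
    (h : ∃ x y : ℚ_[2], (d2 : ℚ_[2]) = x ^ 2 - m * y ^ 2) : LocC ℚ_[2] 0 (9 * m) (-7 * m) d1 d2 := by
  obtain ⟨α, β, hα, hβ, h16⟩ := norm_res (by omega) h
  have hcl : d2 % 8 = 1 ∨ d2 % 8 = 5 ∨ (d2 = 2 * (d2 / 2) ∧ (d2 / 2) % 8 = 1) ∨
      (d2 = 2 * (d2 / 2) ∧ (d2 / 2) % 8 = 5) := by
    rcases hα with rfl | rfl | rfl | rfl <;> rcases hβ with rfl | rfl | rfl | rfl <;> omega
  rcases hd1 with hd1 | hd1 <;> rcases hcl with hd | hd | ⟨hd2, hd⟩ | ⟨hd2, hd⟩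
  · exact mkpt2 (-16) 0 2 0 2 (m * (-1)) (m * (-25) * d2) (m * (-1) * (-25) * (-9)) (Or.inl ⟨hd1, by ring⟩) (by rw [emod2, hm]; norm_num)
      (by ring) (by rw [emod3, hm, hd]; norm_num) (by ring)
      (by rw [emod4, hm]; norm_num)
  · exact mkpt2 (-4) 0 1 0 1 (m * (-1)) (m * (-13) * d2) (m * (-1) * (-13) * (3)) (Or.inl ⟨hd1, by ring⟩) (by rw [emod2, hm]; norm_num)
      (by ring) (by rw [emod3, hm, hd]; norm_num) (by ring)
      (by rw [emod4, hm]; norm_num)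
  · exact mkpt2 (7) 0 0 1 1 (m * (7)) (m * (-1) * (d2 / 2)) (m * (7) * (-1) * (7)) (Or.inl ⟨hd1, by ring⟩) (by rw [emod2, hm]; norm_num)
      (by generalize d2 / 2 = e at hd2; rw [hd2]; ring) (by rw [emod3, hm, hd]; norm_num) (by ring)
      (by rw [emod4, hm]; norm_num)
  · exact mkpt2 (-1) 0 0 1 1 (m * (-1)) (m * (-5) * (d2 / 2)) (m * (-1) * (-5) * (3)) (Or.inl ⟨hd1, by ring⟩) (by rw [emod2, hm]; norm_num)
      (by generalize d2 / 2 = e at hd2; rw [hd2]; ring) (by rw [emod3, hm, hd]; norm_num) (by ring)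
      (by rw [emod4, hm]; norm_num)
  · exact mkpt2 (-247) 0 0 4 6 (-247) (m * (-1) * d2) (m * (-247) * (-1) * (-15)) (Or.inr ⟨hd1, by norm_num⟩) (by norm_num)
      (by ring) (by rw [emod3, hm, hd]; norm_num) (by ring)
      (by rw [emod4, hm]; norm_num)
  · exact mkpt2 (-199) 0 0 2 5 (-199) (m * (-13) * d2) (m * (-199) * (-13) * (-3)) (Or.inr ⟨hd1, by norm_num⟩) (by norm_num)
      (by ring) (by rw [emod3, hm, hd]; norm_num) (by ring)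
      (by rw [emod4, hm]; norm_num)
  · exact mkpt2 (1) 0 0 2 3 (1) (m * (-1) * (d2 / 2)) (m * (1) * (-1) * (1)) (Or.inr ⟨hd1, by norm_num⟩) (by norm_num)
      (by generalize d2 / 2 = e at hd2; rw [hd2]; ring) (by rw [emod3, hm, hd]; norm_num) (by ring)
      (by rw [emod4, hm]; norm_num)
  · exact mkpt2 (-31) 0 0 2 3 (-31) (m * (-5) * (d2 / 2)) (m * (-31) * (-5) * (-3)) (Or.inr ⟨hd1, by norm_num⟩) (by norm_num)
      (by generalize d2 / 2 = e at hd2; rw [hd2]; ring) (by rw [emod3, hm, hd]; norm_num) (by ring)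
      (by rw [emod4, hm]; norm_num)

theorem case3 {m d1 d2 : ℤ} (hm : m % 8 = 3) (s2 : ¬ (4 : ℤ) ∣ d2)
    (hd1 : IsSquare (d1 : ℚ_[2]) ∨ IsSquare ((d1 : ℚ_[2]) * m))
    (h : ∃ x y : ℚ_[2], (d2 : ℚ_[2]) = x ^ 2 - m * y ^ 2) : LocC ℚ_[2] 0 (9 * m) (-7 * m) d1 d2 := by
  obtain ⟨α, β, hα, hβ, h16⟩ := norm_res (by omega) h
  have hcl : d2 % 8 = 1 ∨ d2 % 8 = 5 ∨ (d2 = 2 * (d2 / 2) ∧ (d2 / 2) % 8 = 3) ∨
      (d2 = 2 * (d2 / 2) ∧ (d2 / 2) % 8 = 7) := by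
    rcases hα with rfl | rfl | rfl | rfl <;> rcases hβ with rfl | rfl | rfl | rfl <;> omega
  rcases hd1 with hd1 | hd1 <;> rcases hcl with hd | hd | ⟨hd2, hd⟩ | ⟨hd2, hd⟩
  · exact mkpt2 (12) 0 1 0 1 (m * (3)) (m * (3) * d2) (m * (3) * (3) * (19)) (Or.inl ⟨hd1, by ring⟩) (by rw [emod2, hm]; norm_num)
      (by ring) (by rw [emod3, hm, hd]; norm_num) (by ring)
      (by rw [emod4, hm]; norm_num)
  · exact mkpt2 (48) 0 2 0 2 (m * (3)) (m * (39) * d2) (m * (3) * (39) * (55)) (Or.inl ⟨hd1, by ring⟩) (by rw [emod2, hm]; norm_num)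
      (by ring) (by rw [emod3, hm, hd]; norm_num) (by ring)
      (by rw [emod4, hm]; norm_num)
  · exact mkpt2 (-5) 0 0 1 1 (m * (-5)) (m * (-7) * (d2 / 2)) (m * (-5) * (-7) * (1)) (Or.inl ⟨hd1, by ring⟩) (by rw [emod2, hm]; norm_num)
      (by generalize d2 / 2 = e at hd2; rw [hd2]; ring) (by rw [emod3, hm, hd]; norm_num) (by ring)
      (by rw [emod4, hm]; norm_num)
  · exact mkpt2 (3) 0 0 1 1 (m * (3)) (m * (-3) * (d2 / 2)) (m * (3) * (-3) * (5)) (Or.inl ⟨hd1, by ring⟩) (by rw [emod2, hm]; norm_num)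
      (by generalize d2 / 2 = e at hd2; rw [hd2]; ring) (by rw [emod3, hm, hd]; norm_num) (by ring)
      (by rw [emod4, hm]; norm_num)
  · exact mkpt2 (57) 0 0 2 5 (57) (m * (3) * d2) (m * (57) * (3) * (1)) (Or.inr ⟨hd1, by norm_num⟩) (by norm_num)
      (by ring) (by rw [emod3, hm, hd]; norm_num) (by ring)
      (by rw [emod4, hm]; norm_num)
  · exact mkpt2 (-55) 0 0 3 5 (-55) (m * (-1) * d2) (m * (-55) * (-1) * (-3)) (Or.inr ⟨hd1, by norm_num⟩) (by norm_num)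
      (by ring) (by rw [emod3, hm, hd]; norm_num) (by ring)
      (by rw [emod4, hm]; norm_num)
  · exact mkpt2 (17) 0 0 2 3 (17) (m * (1) * (d2 / 2)) (m * (17) * (1) * (3)) (Or.inr ⟨hd1, by norm_num⟩) (by norm_num)
      (by generalize d2 / 2 = e at hd2; rw [hd2]; ring) (by rw [emod3, hm, hd]; norm_num) (by ring)
      (by rw [emod4, hm]; norm_num)
  · exact mkpt2 (-15) 0 0 2 3 (-15) (m * (-3) * (d2 / 2)) (m * (-15) * (-3) * (-1)) (Or.inr ⟨hd1, by norm_num⟩) (by norm_num)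
      (by generalize d2 / 2 = e at hd2; rw [hd2]; ring) (by rw [emod3, hm, hd]; norm_num) (by ring)
      (by rw [emod4, hm]; norm_num)

theorem case2_1 {m m' d1 d2 : ℤ} (hm2 : m = 2 * m') (hm : m' % 8 = 1) (s2 : ¬ (4 : ℤ) ∣ d2)
    (hd1 : IsSquare (d1 : ℚ_[2]) ∨ IsSquare ((d1 : ℚ_[2]) * m))
    (h : ∃ x y : ℚ_[2], (d2 : ℚ_[2]) = x ^ 2 - m * y ^ 2) : LocC ℚ_[2] 0 (9 * m) (-7 * m) d1 d2 := by
  obtain ⟨α, β, hα, hβ, h16⟩ := norm_res (by omega) h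
  have hcl : d2 % 8 = 1 ∨ d2 % 8 = 7 ∨ (d2 = 2 * (d2 / 2) ∧ (d2 / 2) % 8 = 7) ∨
      (d2 = 2 * (d2 / 2) ∧ (d2 / 2) % 8 = 1) := by
    rcases hα with rfl | rfl | rfl | rfl <;> rcases hβ with rfl | rfl | rfl | rfl <;> omega
  rcases hd1 with hd1 | hd1 <;> rcases hcl with hd | hd | ⟨hd2, hd⟩ | ⟨hd2, hd⟩
  · exact mkpt2 (2) 2 1 1 2 (m' * (1)) (m' * (-71) * d2) (m' * (1) * (-71) * (57)) (Or.inl ⟨hd1, by rw [hm2]; ring⟩) (by rw [emod2, hm]; norm_num)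
      (by rw [hm2]; ring) (by rw [emod3, hm, hd]; norm_num) (by rw [hm2]; ring)
      (by rw [emod4, hm]; norm_num)
  · exact mkpt2 (2) 1 1 1 2 (m' * (1)) (m' * (-17) * d2) (m' * (1) * (-17) * (15)) (Or.inl ⟨hd1, by rw [hm2]; ring⟩) (by rw [emod2, hm]; norm_num)
      (by rw [hm2]; ring) (by rw [emod3, hm, hd]; norm_num) (by rw [hm2]; ring)
      (by rw [emod4, hm]; norm_num)
  · exact mkpt2 (8) 0 2 1 2 (m' * (1)) (m' * (-1) * (d2 / 2)) (m' * (1) * (-1) * (15)) (Or.inl ⟨hd1, by rw [hm2]; ring⟩) (by rw [emod2, hm]; norm_num)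
      (by rw [hm2]; generalize d2 / 2 = e at hd2; rw [hd2]; ring) (by rw [emod3, hm, hd]; norm_num) (by rw [hm2]; ring)
      (by rw [emod4, hm]; norm_num)
  · exact mkpt2 (2) 0 1 1 1 (m' * (1)) (m' * (-7) * (d2 / 2)) (m' * (1) * (-7) * (9)) (Or.inl ⟨hd1, by rw [hm2]; ring⟩) (by rw [emod2, hm]; norm_num)
      (by rw [hm2]; generalize d2 / 2 = e at hd2; rw [hd2]; ring) (by rw [emod3, hm, hd]; norm_num) (by rw [hm2]; ring)
      (by rw [emod4, hm]; norm_num)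
  · exact mkpt2 (137) 0 0 4 6 (137) (m' * (1) * d2) (m' * (137) * (1) * (9)) (Or.inr ⟨hd1, by norm_num⟩) (by norm_num)
      (by rw [hm2]; ring) (by rw [emod3, hm, hd]; norm_num) (by rw [hm2]; ring)
      (by rw [emod4, hm]; norm_num)
  · exact mkpt2 (-23) 0 0 3 5 (-23) (m' * (-1) * d2) (m' * (-23) * (-1) * (-1)) (Or.inr ⟨hd1, by norm_num⟩) (by norm_num)
      (by rw [hm2]; ring) (by rw [emod3, hm, hd]; norm_num) (by rw [hm2]; ring)
      (by rw [emod4, hm]; norm_num)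
  · exact mkpt2 (-135) 0 0 3 6 (-135) (m' * (-9) * (d2 / 2)) (m' * (-135) * (-9) * (-1)) (Or.inr ⟨hd1, by norm_num⟩) (by norm_num)
      (by rw [hm2]; generalize d2 / 2 = e at hd2; rw [hd2]; ring) (by rw [emod3, hm, hd]; norm_num) (by rw [hm2]; ring)
      (by rw [emod4, hm]; norm_num)
  · exact mkpt2 (25) 0 0 3 5 (25) (m' * (1) * (d2 / 2)) (m' * (25) * (1) * (1)) (Or.inr ⟨hd1, by norm_num⟩) (by norm_num)
      (by rw [hm2]; generalize d2 / 2 = e at hd2; rw [hd2]; ring) (by rw [emod3, hm, hd]; norm_num) (by rw [hm2]; ring)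
      (by rw [emod4, hm]; norm_num)

theorem case2_3 {m m' d1 d2 : ℤ} (hm2 : m = 2 * m') (hm : m' % 8 = 3) (s2 : ¬ (4 : ℤ) ∣ d2)
    (hd1 : IsSquare (d1 : ℚ_[2]) ∨ IsSquare ((d1 : ℚ_[2]) * m))
    (h : ∃ x y : ℚ_[2], (d2 : ℚ_[2]) = x ^ 2 - m * y ^ 2) : LocC ℚ_[2] 0 (9 * m) (-7 * m) d1 d2 := by
  obtain ⟨α, β, hα, hβ, h16⟩ := norm_res (by omega) h
  have hcl : d2 % 8 = 1 ∨ d2 % 8 = 3 ∨ (d2 = 2 * (d2 / 2) ∧ (d2 / 2) % 8 = 5) ∨
      (d2 = 2 * (d2 / 2) ∧ (d2 / 2) % 8 = 7) := by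
    rcases hα with rfl | rfl | rfl | rfl <;> rcases hβ with rfl | rfl | rfl | rfl <;> omega
  rcases hd1 with hd1 | hd1 <;> rcases hcl with hd | hd | ⟨hd2, hd⟩ | ⟨hd2, hd⟩
  · exact mkpt2 (6) 2 1 1 2 (m' * (3)) (m' * (-69) * d2) (m' * (3) * (-69) * (59)) (Or.inl ⟨hd1, by rw [hm2]; ring⟩) (by rw [emod2, hm]; norm_num)
      (by rw [hm2]; ring) (by rw [emod3, hm, hd]; norm_num) (by rw [hm2]; ring)
      (by rw [emod4, hm]; norm_num)
  · exact mkpt2 (6) 1 1 1 2 (m' * (3)) (m' * (-15) * d2) (m' * (3) * (-15) * (17)) (Or.inl ⟨hd1, by rw [hm2]; ring⟩) (by rw [emod2, hm]; norm_num)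
      (by rw [hm2]; ring) (by rw [emod3, hm, hd]; norm_num) (by rw [hm2]; ring)
      (by rw [emod4, hm]; norm_num)
  · exact mkpt2 (24) 0 2 1 2 (m' * (3)) (m' * (15) * (d2 / 2)) (m' * (3) * (15) * (31)) (Or.inl ⟨hd1, by rw [hm2]; ring⟩) (by rw [emod2, hm]; norm_num)
      (by rw [hm2]; generalize d2 / 2 = e at hd2; rw [hd2]; ring) (by rw [emod3, hm, hd]; norm_num) (by rw [hm2]; ring)
      (by rw [emod4, hm]; norm_num)
  · exact mkpt2 (6) 0 1 1 1 (m' * (3)) (m' * (-3) * (d2 / 2)) (m' * (3) * (-3) * (13)) (Or.inl ⟨hd1, by rw [hm2]; ring⟩) (by rw [emod2, hm]; norm_num)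
      (by rw [hm2]; generalize d2 / 2 = e at hd2; rw [hd2]; ring) (by rw [emod3, hm, hd]; norm_num) (by rw [hm2]; ring)
      (by rw [emod4, hm]; norm_num)
  · exact mkpt2 (393) 0 0 4 6 (393) (m' * (3) * d2) (m' * (393) * (3) * (25)) (Or.inr ⟨hd1, by norm_num⟩) (by norm_num)
      (by rw [hm2]; ring) (by rw [emod3, hm, hd]; norm_num) (by rw [hm2]; ring)
      (by rw [emod4, hm]; norm_num)
  · exact mkpt2 (41) 0 0 3 5 (41) (m' * (1) * d2) (m' * (41) * (1) * (3)) (Or.inr ⟨hd1, by norm_num⟩) (by norm_num)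
      (by rw [hm2]; ring) (by rw [emod3, hm, hd]; norm_num) (by rw [hm2]; ring)
      (by rw [emod4, hm]; norm_num)
  · exact mkpt2 (-391) 0 0 3 6 (-391) (m' * (-25) * (d2 / 2)) (m' * (-391) * (-25) * (-3)) (Or.inr ⟨hd1, by norm_num⟩) (by norm_num)
      (by rw [hm2]; generalize d2 / 2 = e at hd2; rw [hd2]; ring) (by rw [emod3, hm, hd]; norm_num) (by rw [hm2]; ring)
      (by rw [emod4, hm]; norm_num)
  · exact mkpt2 (-39) 0 0 3 5 (-39) (m' * (-3) * (d2 / 2)) (m' * (-39) * (-3) * (-1)) (Or.inr ⟨hd1, by norm_num⟩) (by norm_num)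
      (by rw [hm2]; generalize d2 / 2 = e at hd2; rw [hd2]; ring) (by rw [emod3, hm, hd]; norm_num) (by rw [hm2]; ring)
      (by rw [emod4, hm]; norm_num)

theorem case2_5 {m m' d1 d2 : ℤ} (hm2 : m = 2 * m') (hm : m' % 8 = 5) (s2 : ¬ (4 : ℤ) ∣ d2)
    (hd1 : IsSquare (d1 : ℚ_[2]) ∨ IsSquare ((d1 : ℚ_[2]) * m))
    (h : ∃ x y : ℚ_[2], (d2 : ℚ_[2]) = x ^ 2 - m * y ^ 2) : LocC ℚ_[2] 0 (9 * m) (-7 * m) d1 d2 := by
  obtain ⟨α, β, hα, hβ, h16⟩ := norm_res (by omega) h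
  have hcl : d2 % 8 = 1 ∨ d2 % 8 = 7 ∨ (d2 = 2 * (d2 / 2) ∧ (d2 / 2) % 8 = 3) ∨
      (d2 = 2 * (d2 / 2) ∧ (d2 / 2) % 8 = 5) := by
    rcases hα with rfl | rfl | rfl | rfl <;> rcases hβ with rfl | rfl | rfl | rfl <;> omega
  rcases hd1 with hd1 | hd1 <;> rcases hcl with hd | hd | ⟨hd2, hd⟩ | ⟨hd2, hd⟩
  · exact mkpt2 (-6) 2 1 1 2 (m' * (-3)) (m' * (-75) * d2) (m' * (-3) * (-75) * (53)) (Or.inl ⟨hd1, by rw [hm2]; ring⟩) (by rw [emod2, hm]; norm_num)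
      (by rw [hm2]; ring) (by rw [emod3, hm, hd]; norm_num) (by rw [hm2]; ring)
      (by rw [emod4, hm]; norm_num)
  · exact mkpt2 (-6) 1 1 1 2 (m' * (-3)) (m' * (-21) * d2) (m' * (-3) * (-21) * (11)) (Or.inl ⟨hd1, by rw [hm2]; ring⟩) (by rw [emod2, hm]; norm_num)
      (by rw [hm2]; ring) (by rw [emod3, hm, hd]; norm_num) (by rw [hm2]; ring)
      (by rw [emod4, hm]; norm_num)
  · exact mkpt2 (-24) 0 2 1 2 (m' * (-3)) (m' * (-33) * (d2 / 2)) (m' * (-3) * (-33) * (-17)) (Or.inl ⟨hd1, by rw [hm2]; ring⟩) (by rw [emod2, hm]; norm_num)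
      (by rw [hm2]; generalize d2 / 2 = e at hd2; rw [hd2]; ring) (by rw [emod3, hm, hd]; norm_num) (by rw [hm2]; ring)
      (by rw [emod4, hm]; norm_num)
  · exact mkpt2 (-6) 0 1 1 1 (m' * (-3)) (m' * (-15) * (d2 / 2)) (m' * (-3) * (-15) * (1)) (Or.inl ⟨hd1, by rw [hm2]; ring⟩) (by rw [emod2, hm]; norm_num)
      (by rw [hm2]; generalize d2 / 2 = e at hd2; rw [hd2]; ring) (by rw [emod3, hm, hd]; norm_num) (by rw [hm2]; ring)
      (by rw [emod4, hm]; norm_num)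
  · exact mkpt2 (-375) 0 0 4 6 (-375) (m' * (-3) * d2) (m' * (-375) * (-3) * (-23)) (Or.inr ⟨hd1, by norm_num⟩) (by norm_num)
      (by rw [hm2]; ring) (by rw [emod3, hm, hd]; norm_num) (by rw [hm2]; ring)
      (by rw [emod4, hm]; norm_num)
  · exact mkpt2 (105) 0 0 3 5 (105) (m' * (3) * d2) (m' * (105) * (3) * (7)) (Or.inr ⟨hd1, by norm_num⟩) (by norm_num)
      (by rw [hm2]; ring) (by rw [emod3, hm, hd]; norm_num) (by rw [hm2]; ring)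
      (by rw [emod4, hm]; norm_num)
  · exact mkpt2 (377) 0 0 3 6 (377) (m' * (23) * (d2 / 2)) (m' * (377) * (23) * (3)) (Or.inr ⟨hd1, by norm_num⟩) (by norm_num)
      (by rw [hm2]; generalize d2 / 2 = e at hd2; rw [hd2]; ring) (by rw [emod3, hm, hd]; norm_num) (by rw [hm2]; ring)
      (by rw [emod4, hm]; norm_num)
  · exact mkpt2 (-103) 0 0 3 5 (-103) (m' * (-7) * (d2 / 2)) (m' * (-103) * (-7) * (-3)) (Or.inr ⟨hd1, by norm_num⟩) (by norm_num)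
      (by rw [hm2]; generalize d2 / 2 = e at hd2; rw [hd2]; ring) (by rw [emod3, hm, hd]; norm_num) (by rw [hm2]; ring)
      (by rw [emod4, hm]; norm_num)

theorem case2_7 {m m' d1 d2 : ℤ} (hm2 : m = 2 * m') (hm : m' % 8 = 7) (s2 : ¬ (4 : ℤ) ∣ d2)
    (hd1 : IsSquare (d1 : ℚ_[2]) ∨ IsSquare ((d1 : ℚ_[2]) * m))
    (h : ∃ x y : ℚ_[2], (d2 : ℚ_[2]) = x ^ 2 - m * y ^ 2) : LocC ℚ_[2] 0 (9 * m) (-7 * m) d1 d2 := by
  obtain ⟨α, β, hα, hβ, h16⟩ := norm_res (by omega) h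
  have hcl : d2 % 8 = 1 ∨ d2 % 8 = 3 ∨ (d2 = 2 * (d2 / 2) ∧ (d2 / 2) % 8 = 1) ∨
      (d2 = 2 * (d2 / 2) ∧ (d2 / 2) % 8 = 3) := by
    rcases hα with rfl | rfl | rfl | rfl <;> rcases hβ with rfl | rfl | rfl | rfl <;> omega
  rcases hd1 with hd1 | hd1 <;> rcases hcl with hd | hd | ⟨hd2, hd⟩ | ⟨hd2, hd⟩
  · exact mkpt2 (-2) 2 1 1 2 (m' * (-1)) (m' * (-73) * d2) (m' * (-1) * (-73) * (55)) (Or.inl ⟨hd1, by rw [hm2]; ring⟩) (by rw [emod2, hm]; norm_num)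
      (by rw [hm2]; ring) (by rw [emod3, hm, hd]; norm_num) (by rw [hm2]; ring)
      (by rw [emod4, hm]; norm_num)
  · exact mkpt2 (-2) 1 1 1 2 (m' * (-1)) (m' * (-19) * d2) (m' * (-1) * (-19) * (13)) (Or.inl ⟨hd1, by rw [hm2]; ring⟩) (by rw [emod2, hm]; norm_num)
      (by rw [hm2]; ring) (by rw [emod3, hm, hd]; norm_num) (by rw [hm2]; ring)
      (by rw [emod4, hm]; norm_num)
  · exact mkpt2 (-8) 0 2 1 2 (m' * (-1)) (m' * (-17) * (d2 / 2)) (m' * (-1) * (-17) * (-1)) (Or.inl ⟨hd1, by rw [hm2]; ring⟩) (by rw [emod2, hm]; norm_num)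
      (by rw [hm2]; generalize d2 / 2 = e at hd2; rw [hd2]; ring) (by rw [emod3, hm, hd]; norm_num) (by rw [hm2]; ring)
      (by rw [emod4, hm]; norm_num)
  · exact mkpt2 (-2) 0 1 1 1 (m' * (-1)) (m' * (-11) * (d2 / 2)) (m' * (-1) * (-11) * (5)) (Or.inl ⟨hd1, by rw [hm2]; ring⟩) (by rw [emod2, hm]; norm_num)
      (by rw [hm2]; generalize d2 / 2 = e at hd2; rw [hd2]; ring) (by rw [emod3, hm, hd]; norm_num) (by rw [hm2]; ring)
      (by rw [emod4, hm]; norm_num)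
  · exact mkpt2 (-119) 0 0 4 6 (-119) (m' * (-1) * d2) (m' * (-119) * (-1) * (-7)) (Or.inr ⟨hd1, by norm_num⟩) (by norm_num)
      (by rw [hm2]; ring) (by rw [emod3, hm, hd]; norm_num) (by rw [hm2]; ring)
      (by rw [emod4, hm]; norm_num)
  · exact mkpt2 (-87) 0 0 3 5 (-87) (m' * (-3) * d2) (m' * (-87) * (-3) * (-5)) (Or.inr ⟨hd1, by norm_num⟩) (by norm_num)
      (by rw [hm2]; ring) (by rw [emod3, hm, hd]; norm_num) (by rw [hm2]; ring)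
      (by rw [emod4, hm]; norm_num)
  · exact mkpt2 (121) 0 0 3 6 (121) (m' * (7) * (d2 / 2)) (m' * (121) * (7) * (1)) (Or.inr ⟨hd1, by norm_num⟩) (by norm_num)
      (by rw [hm2]; generalize d2 / 2 = e at hd2; rw [hd2]; ring) (by rw [emod3, hm, hd]; norm_num) (by rw [hm2]; ring)
      (by rw [emod4, hm]; norm_num)
  · exact mkpt2 (89) 0 0 3 5 (89) (m' * (5) * (d2 / 2)) (m' * (89) * (5) * (3)) (Or.inr ⟨hd1, by norm_num⟩) (by norm_num)
      (by rw [hm2]; generalize d2 / 2 = e at hd2; rw [hd2]; ring) (by rw [emod3, hm, hd]; norm_num) (by rw [hm2]; ring)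
      (by rw [emod4, hm]; norm_num)

theorem t_LB : S_LB := by
  intro m hm hm4 d1 d2 s1 s2 hd1 h
  have n4 : ∀ z : ℤ, Squarefree z → ¬ (4 : ℤ) ∣ z := by
    intro z hz h4
    have := hz 2 (by norm_num; exact h4)
    rw [Int.isUnit_iff] at this
    omega
  have hm0 := n4 m hm.sqf
  have hd0 := n4 d2 s2
  have hcases : m % 8 = 7 ∨ m % 8 = 3 ∨ (m = 2 * (m / 2) ∧ ((m / 2) % 8 = 1 ∨ (m / 2) % 8 = 3 ∨
      (m / 2) % 8 = 5 ∨ (m / 2) % 8 = 7)) := by omega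
  rcases hcases with h8 | h8 | ⟨h2, h8 | h8 | h8 | h8⟩
  · exact case7 h8 hd0 hd1 h
  · exact case3 h8 hd0 hd1 h
  · exact case2_1 h2 h8 hd0 hd1 h
  · exact case2_3 h2 h8 hd0 hd1 h
  · exact case2_5 h2 h8 hd0 hd1 h
  · exact case2_7 h2 h8 hd0 hd1 h


end Pool.Agent.N954.SLX
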